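import Mathlib

set_option autoImplicit false

/-!
Planes of three-space of the form `x + t y + t^2 z = f t`: elementary geometry.
-/

namespace Pool.Agent.W42.Joints

open Module

/-- Euclidean three-space. -/
abbrev E3 := EuclideanSpace ℝ (Fin 3)

/-- Affine subspaces of three-space. -/
abbrev Flat := AffineSubspace ℝ E3

/-- Lines. -/
def IsLine (l : Flat) : Prop := l ≠ ⊥ ∧ finrank ℝ l.direction = 1

/-- Planes. -/
def IsPlane (P : Flat) : Prop := P ≠ ⊥ ∧ finrank ℝ P.direction = 2

/-- `p` lies on three members of `L` which have linearly independent direction vectors. -/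
def IsJoint (L : Set Flat) (p : E3) : Prop :=
  ∃ l : Fin 3 → Flat, (∀ i, l i ∈ L ∧ p ∈ l i) ∧
    ∃ v : Fin 3 → E3, (∀ i, v i ∈ (l i).direction) ∧ LinearIndependent ℝ v

/-- The intersections of two distinct members of `H`. -/
def linesOf (H : Set Flat) : Set Flat := {l | ∃ P ∈ H, ∃ Q ∈ H, P ≠ Q ∧ l = P ⊓ Q}

/-- The vector with coordinates `x, y, z`. -/
noncomputable def vec (x y z : ℝ) : E3 := WithLp.toLp 2 ![x, y, z]

@[simp] lemma vec_zero (x y z : ℝ) : vec x y z 0 = x := rfl
@[simp] lemma vec_one (x y z : ℝ) : vec x y z 1 = y := rfl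
@[simp] lemma vec_two (x y z : ℝ) : vec x y z 2 = z := rfl

lemma ext3 {p q : E3} (h0 : p 0 = q 0) (h1 : p 1 = q 1) (h2 : p 2 = q 2) : p = q := by
  ext i
  fin_cases i <;> assumption

/-- The linear functional `x + t y + t^2 z`. -/
noncomputable def phi (t : ℝ) : E3 →ₗ[ℝ] ℝ where
  toFun p := p 0 + t * p 1 + t ^ 2 * p 2
  map_add' p q := by simp only [PiLp.add_apply]; ring
  map_smul' c p := by simp only [PiLp.smul_apply, smul_eq_mul, RingHom.id_apply]; ring

lemma phi_apply (t : ℝ) (p : E3) : phi t p = p 0 + t * p 1 + t ^ 2 * p 2 := rfl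

/-- The plane `x + t y + t^2 z = c`. -/
noncomputable def plane (t c : ℝ) : Flat where
  carrier := {p | phi t p = c}
  smul_vsub_vadd_mem' s p q r hp hq hr := by
    simp only [Set.mem_ofPred_eq] at hp hq hr ⊢
    simp only [vsub_eq_sub, vadd_eq_add, map_add, map_smul, map_sub, hp, hq, hr]
    simp

lemma mem_plane {t c : ℝ} {p : E3} : p ∈ plane t c ↔ phi t p = c := Iff.rfl

lemma plane_nonempty (t c : ℝ) : ((plane t c : Flat) : Set E3).Nonempty :=
  ⟨vec c 0 0, by
    show phi t (vec c 0 0) = c
    simp [phi_apply]⟩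

lemma plane_ne_bot (t c : ℝ) : plane t c ≠ ⊥ := by
  intro h
  obtain ⟨p, hp⟩ := plane_nonempty t c
  rw [h] at hp
  exact hp

lemma direction_plane (t c : ℝ) : (plane t c).direction = LinearMap.ker (phi t) := by
  ext v
  have hp : vec c 0 0 ∈ plane t c := by
    show phi t (vec c 0 0) = c
    simp [phi_apply]
  rw [LinearMap.mem_ker, ← AffineSubspace.vadd_mem_iff_mem_direction v hp, mem_plane]
  rw [vadd_eq_add, map_add, mem_plane.1 hp]
  constructor
  · intro h; linarith
  · intro h; linarith

lemma phi_surj (t : ℝ) : Function.Surjective (phi t) := by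
  intro c
  exact ⟨vec c 0 0, by simp [phi_apply]⟩

lemma finrank_ker_phi (t : ℝ) : finrank ℝ (LinearMap.ker (phi t)) = 2 := by
  have h := LinearMap.finrank_range_add_finrank_ker (phi t)
  rw [LinearMap.range_eq_top.2 (phi_surj t), finrank_top] at h
  simp at h
  omega

lemma isPlane_plane (t c : ℝ) : IsPlane (plane t c) :=
  ⟨plane_ne_bot t c, by rw [direction_plane, finrank_ker_phi]⟩

/-- The direction of the intersection of the planes with parameters `a` and `b`. -/
noncomputable def dvec (a b : ℝ) : E3 := vec (a * b) (-(a + b)) 1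

lemma phi_dvec (t a b : ℝ) : phi t (dvec a b) = (t - a) * (t - b) := by
  simp only [phi_apply, dvec, vec_zero, vec_one, vec_two]; ring

lemma dvec_ne_zero (a b : ℝ) : dvec a b ≠ 0 := by
  intro h
  have := congrArg (fun v : E3 => v 2) h
  simp [dvec] at this

lemma dvec_comm (a b : ℝ) : dvec a b = dvec b a := by
  apply ext3 <;> simp [dvec] <;> ring

/-- A vector killed by `phi` at two distinct parameters is a multiple of `dvec`. -/
lemma eq_smul_dvec {a b : ℝ} (hab : a ≠ b) {v : E3} (ha : phi a v = 0) (hb : phi b v = 0) :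
    v = v 2 • dvec a b := by
  rw [phi_apply] at ha hb
  have h1 : (a - b) * (v 1 + (a + b) * v 2) = 0 := by linear_combination ha - hb
  have h2 : v 1 + (a + b) * v 2 = 0 :=
    (mul_eq_zero.1 h1).resolve_left (sub_ne_zero.2 hab)
  apply ext3
  · simp only [PiLp.smul_apply, smul_eq_mul, dvec, vec_zero]
    linear_combination ha - a * h2
  · simp only [PiLp.smul_apply, smul_eq_mul, dvec, vec_one]
    linear_combination h2
  · simp only [PiLp.smul_apply, smul_eq_mul, dvec, vec_two]
    ring

/-- A vector killed by `phi` at three distinct parameters vanishes. -/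
lemma eq_zero_of_three {a b c : ℝ} (hab : a ≠ b) (hac : a ≠ c) (hbc : b ≠ c) {v : E3}
    (ha : phi a v = 0) (hb : phi b v = 0) (hc : phi c v = 0) : v = 0 := by
  have h := eq_smul_dvec hab ha hb
  rw [h, map_smul, phi_dvec, smul_eq_mul] at hc
  have h2 : v 2 = 0 := by
    rcases mul_eq_zero.1 hc with h2 | h2
    · exact h2
    · rcases mul_eq_zero.1 h2 with h2 | h2
      · exact absurd (sub_eq_zero.1 h2).symm hac
      · exact absurd (sub_eq_zero.1 h2).symm hbc
  rw [h, h2, zero_smul]

lemma ker_inf {a b : ℝ} (hab : a ≠ b) :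
    LinearMap.ker (phi a) ⊓ LinearMap.ker (phi b) = ℝ ∙ dvec a b := by
  ext v
  rw [Submodule.mem_inf, LinearMap.mem_ker, LinearMap.mem_ker, Submodule.mem_span_singleton]
  constructor
  · rintro ⟨ha, hb⟩
    exact ⟨v 2, (eq_smul_dvec hab ha hb).symm⟩
  · rintro ⟨s, rfl⟩
    rw [map_smul, map_smul, phi_dvec, phi_dvec]
    simp

/-- Two planes of the family have a common point. -/
lemma exists_mem_two {a b : ℝ} (hab : a ≠ b) (ca cb : ℝ) :
    ∃ p, p ∈ plane a ca ∧ p ∈ plane b cb := by
  refine ⟨vec (ca - a * ((ca - cb) / (a - b))) ((ca - cb) / (a - b)) 0, ?_, ?_⟩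
  · rw [mem_plane, phi_apply]; simp
  · rw [mem_plane, phi_apply]
    simp only [vec_zero, vec_one, vec_two]
    have : a - b ≠ 0 := sub_ne_zero.2 hab
    field_simp
    ring

/-- Three planes of the family have a common point. -/
lemma exists_mem_three {a b c : ℝ} (hab : a ≠ b) (hac : a ≠ c) (hbc : b ≠ c) (ca cb cc : ℝ) :
    ∃ p, p ∈ plane a ca ∧ p ∈ plane b cb ∧ p ∈ plane c cc := by
  obtain ⟨p, hpa, hpb⟩ := exists_mem_two hab ca cb
  have h1 : (c - a) * (c - b) ≠ 0 :=
    mul_ne_zero (sub_ne_zero.2 hac.symm) (sub_ne_zero.2 hbc.symm)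
  refine ⟨p + ((cc - phi c p) / ((c - a) * (c - b))) • dvec a b, ?_, ?_, ?_⟩
  · rw [mem_plane] at *
    rw [map_add, map_smul, phi_dvec, hpa]; simp
  · rw [mem_plane] at *
    rw [map_add, map_smul, phi_dvec, hpb]; simp
  · rw [mem_plane, map_add, map_smul, phi_dvec, smul_eq_mul]
    field_simp
    ring

lemma direction_inf {a b : ℝ} (hab : a ≠ b) (ca cb : ℝ) :
    (plane a ca ⊓ plane b cb).direction = ℝ ∙ dvec a b := by
  obtain ⟨p, hp1, hp2⟩ := exists_mem_two hab ca cb
  rw [AffineSubspace.direction_inf_of_mem hp1 hp2, direction_plane, direction_plane, ker_inf hab]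

lemma isLine_inf {a b : ℝ} (hab : a ≠ b) (ca cb : ℝ) : IsLine (plane a ca ⊓ plane b cb) := by
  constructor
  · obtain ⟨p, hp1, hp2⟩ := exists_mem_two hab ca cb
    intro h
    have : p ∈ plane a ca ⊓ plane b cb := ⟨hp1, hp2⟩
    rw [h] at this
    exact this
  · rw [direction_inf hab, finrank_span_singleton (dvec_ne_zero a b)]

lemma indep_dvec {a b c : ℝ} (hab : a ≠ b) (hac : a ≠ c) (hbc : b ≠ c) :
    LinearIndependent ℝ ![dvec b c, dvec a c, dvec a b] := by
  rw [Fintype.linearIndependent_iff]
  intro g hg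
  rw [Fin.sum_univ_three] at hg
  simp only [Matrix.cons_val_zero, Matrix.cons_val_one, Matrix.cons_val_two, Matrix.head_cons,
    Matrix.tail_cons] at hg
  have h : ∀ t, g 0 * ((t - b) * (t - c)) + g 1 * ((t - a) * (t - c)) +
      g 2 * ((t - a) * (t - b)) = 0 := by
    intro t
    have := congrArg (phi t) hg
    rw [map_add, map_add, map_smul, map_smul, map_smul, phi_dvec, phi_dvec, phi_dvec,
      map_zero] at this
    simpa using this
  have hab' := sub_ne_zero.2 hab
  have hac' := sub_ne_zero.2 hac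
  have hbc' := sub_ne_zero.2 hbc
  intro i
  fin_cases i
  · have := h a
    have h2 : g 0 * ((a - b) * (a - c)) = 0 := by linear_combination this
    exact (mul_eq_zero.1 h2).resolve_right (mul_ne_zero hab' hac')
  · have := h b
    have h2 : g 1 * ((a - b) * (b - c)) = 0 := by linear_combination -this
    exact (mul_eq_zero.1 h2).resolve_right (mul_ne_zero hab' hbc')
  · have := h c
    have h2 : g 2 * ((a - c) * (b - c)) = 0 := by linear_combination this
    exact (mul_eq_zero.1 h2).resolve_right (mul_ne_zero hac' hbc')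

/-- Planes of the family with different parameters are not parallel. -/
lemma not_parallel {a b : ℝ} (hab : a ≠ b) (ca cb : ℝ) :
    (plane a ca).direction ≠ (plane b cb).direction := by
  intro h
  rw [direction_plane, direction_plane] at h
  have h1 := ker_inf hab
  rw [h, inf_idem] at h1
  have h2 := finrank_ker_phi b
  rw [h1, finrank_span_singleton (dvec_ne_zero a b)] at h2
  omega

lemma plane_inj {a b ca cb : ℝ} (h : plane a ca = plane b cb) : a = b := by
  by_contra hab
  exact not_parallel hab ca cb (by rw [h])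

end Pool.Agent.W42.Joints
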