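import Mathlib
import Pool.Agent.W42.Joints.Geo

set_option autoImplicit false

/-!
Counting the pairwise intersections of a family of planes.
-/

namespace Pool.Agent.W42.Joints

open Module

/-- Two planes which are not parallel meet in a line. -/
lemma isLine_inf_of_plane {P Q : Flat} (hP : IsPlane P) (hQ : IsPlane Q)
    (hne : P.direction ≠ Q.direction) : IsLine (P ⊓ Q) := by
  have h3 : finrank ℝ E3 = 3 := by simp
  have hlt : P.direction < P.direction ⊔ Q.direction := by
    refine lt_of_le_of_ne le_sup_left ?_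
    intro h
    have hle : Q.direction ≤ P.direction := by
      rw [h]; exact le_sup_right
    exact hne (Submodule.eq_of_le_of_finrank_eq hle (by rw [hP.2, hQ.2])).symm
  have h4 := Submodule.finrank_lt_finrank_of_lt hlt
  have h5 := Submodule.finrank_le (P.direction ⊔ Q.direction)
  have h6 : finrank ℝ (P.direction ⊔ Q.direction : Submodule ℝ E3) = 3 := by
    rw [hP.2] at h4; omega
  have htop : P.direction ⊔ Q.direction = ⊤ :=
    Submodule.eq_top_of_finrank_eq (by rw [h6, h3])
  have hPn : (P : Set E3).Nonempty := (AffineSubspace.nonempty_iff_ne_bot P).2 hP.1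
  have hQn : (Q : Set E3).Nonempty := (AffineSubspace.nonempty_iff_ne_bot Q).2 hQ.1
  obtain ⟨p, hp1, hp2⟩ :=
    AffineSubspace.inter_nonempty_of_nonempty_of_sup_direction_eq_top hPn hQn htop
  constructor
  · intro h
    have : p ∈ P ⊓ Q := ⟨hp1, hp2⟩
    rw [h] at this
    exact this
  · rw [AffineSubspace.direction_inf_of_mem hp1 hp2]
    have h7 := Submodule.finrank_sup_add_finrank_inf_eq P.direction Q.direction
    rw [h6, hP.2, hQ.2] at h7
    omega

/-- The pairwise intersections as the image of the set of pairs. -/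
lemma linesOf_eq_image (H : Finset Flat) :
    linesOf (H : Set Flat) = (fun s : Finset Flat => s.inf id) '' (H.powersetCard 2 : Set (Finset Flat)) := by
  classical
  ext l
  constructor
  · rintro ⟨P, hP, Q, hQ, hne, rfl⟩
    refine ⟨{P, Q}, ?_, ?_⟩
    · rw [Finset.mem_coe, Finset.mem_powersetCard]
      refine ⟨?_, Finset.card_pair hne⟩
      intro x hx
      rw [Finset.mem_insert, Finset.mem_singleton] at hx
      rcases hx with rfl | rfl
      · exact hP
      · exact hQ
    · simp
  · rintro ⟨s, hs, rfl⟩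
    rw [Finset.mem_coe, Finset.mem_powersetCard] at hs
    obtain ⟨P, Q, hne, rfl⟩ := Finset.card_eq_two.1 hs.2
    refine ⟨P, hs.1 (by simp), Q, hs.1 (by simp), hne, by simp⟩

lemma linesOf_finite (H : Finset Flat) : (linesOf (H : Set Flat)).Finite := by
  rw [linesOf_eq_image]
  exact (Finset.finite_toSet _).image _

lemma linesOf_ncard_le (H : Finset Flat) : (linesOf (H : Set Flat)).ncard ≤ H.card.choose 2 := by
  rw [linesOf_eq_image]
  refine (Set.ncard_image_le (Finset.finite_toSet _)).trans ?_
  rw [Set.ncard_coe_finset, Finset.card_powersetCard]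

lemma linesOf_ncard (H : Finset Flat) (h1 : ∀ P ∈ H, ∀ Q ∈ H, P ≠ Q → IsLine (P ⊓ Q))
    (h2 : ∀ l, IsLine l → {P ∈ (H : Set Flat) | l ≤ P}.ncard ≤ 2) :
    (linesOf (H : Set Flat)).ncard = H.card.choose 2 := by
  classical
  rw [linesOf_eq_image, Set.InjOn.ncard_image, Set.ncard_coe_finset, Finset.card_powersetCard]
  intro s hs t ht hst
  rw [Finset.mem_coe, Finset.mem_powersetCard] at hs ht
  have hl : IsLine (s.inf id) := by
    obtain ⟨P, Q, hne, rfl⟩ := Finset.card_eq_two.1 hs.2
    simpa using h1 P (hs.1 (by simp)) Q (hs.1 (by simp)) hne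
  have hfin : {P ∈ (H : Set Flat) | s.inf id ≤ P}.Finite := H.finite_toSet.subset (fun x hx => hx.1)
  have hst' : s.inf id = t.inf id := hst
  have a1 : (s : Set Flat) ⊆ {P ∈ (H : Set Flat) | s.inf id ≤ P} := by
    intro P hP
    exact ⟨hs.1 hP, Finset.inf_le hP⟩
  have a2 : (t : Set Flat) ⊆ {P ∈ (H : Set Flat) | s.inf id ≤ P} := by
    intro P hP
    refine ⟨ht.1 hP, ?_⟩
    rw [hst']
    exact Finset.inf_le hP
  have b1 : (s : Set Flat) = {P ∈ (H : Set Flat) | s.inf id ≤ P} :=
    Set.eq_of_subset_of_ncard_le a1 (by rw [Set.ncard_coe_finset, hs.2]; exact h2 _ hl) hfin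
  have b2 : (t : Set Flat) = {P ∈ (H : Set Flat) | s.inf id ≤ P} :=
    Set.eq_of_subset_of_ncard_le a2 (by rw [Set.ncard_coe_finset, ht.2]; exact h2 _ hl) hfin
  exact_mod_cast b1.trans b2.symm

end Pool.Agent.W42.Joints
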