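import Mathlib
import Pool.Agent.W42.Joints.Geo

set_option autoImplicit false

/-!
The configuration: `B` blocks of `K` planes; the planes of a block pass through one point, and four
planes which are not all in one block have no common point.
-/

namespace Pool.Agent.W42.Joints

open Module

/-- The right hand sides. -/
noncomputable def ht (K B t : ℕ) : ℝ := (((K * B) ^ 3 + 2 : ℕ) : ℝ) ^ (t / K)

/-- The planes of the configuration. -/
noncomputable def pl (K B t : ℕ) : Flat := plane (t : ℝ) (ht K B t)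

lemma ht_pos (K B t : ℕ) : 0 < ht K B t := by
  unfold ht
  positivity

lemma one_le_base (K B : ℕ) : (1 : ℝ) ≤ (((K * B) ^ 3 + 2 : ℕ) : ℝ) := by
  have : (1 : ℕ) ≤ (K * B) ^ 3 + 2 := by omega
  exact_mod_cast this

lemma ht_mono (K B : ℕ) {s t : ℕ} (h : s ≤ t) : ht K B s ≤ ht K B t :=
  pow_le_pow_right₀ (one_le_base K B) (Nat.div_le_div_right h)

lemma ht_jump (K B : ℕ) {s t : ℕ} (h : s / K < t / K) :
    (((K * B : ℕ) : ℝ) ^ 3 + 2) * ht K B s ≤ ht K B t := by
  have h1 : (((K * B) ^ 3 + 2 : ℕ) : ℝ) ^ (s / K + 1) ≤ ht K B t :=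
    pow_le_pow_right₀ (one_le_base K B) h
  have h2 : (((K * B : ℕ) : ℝ) ^ 3 + 2) * ht K B s = (((K * B) ^ 3 + 2 : ℕ) : ℝ) ^ (s / K + 1) := by
    rw [pow_succ, mul_comm]
    unfold ht
    congr 1
    push_cast
    ring
  rw [h2]
  exact h1

lemma ht_eq (K B : ℕ) {s t : ℕ} (h : s / K = t / K) : ht K B s = ht K B t := by
  unfold ht
  rw [h]

/-- Four planes with a common point are in one block: ordered form. -/
lemma four_sorted {K B a b c d : ℕ} (hab : a < b) (hbc : b < c) (hcd : c < d) (hd : d < K * B)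
    {p : E3} (ha : p ∈ pl K B a) (hb : p ∈ pl K B b) (hc : p ∈ pl K B c) (hdd : p ∈ pl K B d) :
    a / K = d / K := by
  have e1 : p 0 + (a : ℝ) * p 1 + (a : ℝ) ^ 2 * p 2 = ht K B a := ha
  have e2 : p 0 + (b : ℝ) * p 1 + (b : ℝ) ^ 2 * p 2 = ht K B b := hb
  have e3 : p 0 + (c : ℝ) * p 1 + (c : ℝ) ^ 2 * p 2 = ht K B c := hc
  have e4 : p 0 + (d : ℝ) * p 1 + (d : ℝ) ^ 2 * p 2 = ht K B d := hdd
  have hab' : (a : ℝ) + 1 ≤ b := by exact_mod_cast hab
  have hbc' : (b : ℝ) + 1 ≤ c := by exact_mod_cast hbc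
  have hcd' : (c : ℝ) + 1 ≤ d := by exact_mod_cast hcd
  have ha0 : (0 : ℝ) ≤ a := Nat.cast_nonneg a
  set M : ℝ := ((K * B : ℕ) : ℝ) with hM
  have hdM : (d : ℝ) ≤ M := by rw [hM]; exact_mod_cast hd.le
  have hM0 : 0 ≤ M := Nat.cast_nonneg _
  -- Vandermonde factors
  set V234 : ℝ := ((c : ℝ) - b) * (d - b) * (d - c) with hV234
  set W : ℝ := ((d : ℝ) - c) * (b - a) * (c + d - a - b) with hW
  set V123 : ℝ := ((b : ℝ) - a) * (c - a) * (c - b) with hV123
  have key : (ht K B b - ht K B a) * V234 + (ht K B d - ht K B c) * V123 =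
      (ht K B c - ht K B b) * W := by
    rw [← e1, ← e2, ← e3, ← e4, hV234, hW, hV123]
    ring
  have q1 : (1 : ℝ) ≤ b - a := by linarith
  have q2 : (1 : ℝ) ≤ c - b := by linarith
  have q3 : (1 : ℝ) ≤ d - c := by linarith
  have q4 : (1 : ℝ) ≤ c - a := by linarith
  have q5 : (1 : ℝ) ≤ d - b := by linarith
  have V234pos : 1 ≤ V234 := one_le_mul_of_one_le_of_one_le
    (one_le_mul_of_one_le_of_one_le q2 q5) q3
  have V123pos : 1 ≤ V123 := one_le_mul_of_one_le_of_one_le
    (one_le_mul_of_one_le_of_one_le q1 q4) q2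
  have Wpos : 1 ≤ W := one_le_mul_of_one_le_of_one_le
    (one_le_mul_of_one_le_of_one_le q3 q1) (by linarith)
  have V234le : V234 ≤ M ^ 3 := by
    have : V234 ≤ M * M * M :=
      mul_le_mul (mul_le_mul (by linarith) (by linarith) (by linarith) hM0) (by linarith)
        (by linarith) (by positivity)
    calc V234 ≤ M * M * M := this
      _ = M ^ 3 := by ring
  have Wle : W ≤ M ^ 3 := by
    have h1 : W = ((d : ℝ) - c) * (b - a) * (c + d - a - b) := hW
    have h2 : ((d : ℝ) - c) * (b - a) ≤ M / 2 * (M / 2) := by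
      have : ((d : ℝ) - c) * (b - a) ≤ ((d - c + (b - a)) / 2) ^ 2 := by
        nlinarith [sq_nonneg (((d : ℝ) - c) - (b - a))]
      have h3 : ((d : ℝ) - c + (b - a)) / 2 ≤ M / 2 := by linarith
      have h4 : (0 : ℝ) ≤ ((d : ℝ) - c + (b - a)) / 2 := by linarith
      calc ((d : ℝ) - c) * (b - a) ≤ ((d - c + (b - a)) / 2) ^ 2 := this
        _ ≤ (M / 2) ^ 2 := by gcongr
        _ = M / 2 * (M / 2) := by ring
    have h5 : (c : ℝ) + d - a - b ≤ 2 * M := by linarith
    calc W = ((d : ℝ) - c) * (b - a) * (c + d - a - b) := h1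
      _ ≤ M / 2 * (M / 2) * (2 * M) := by
          apply mul_le_mul h2 h5 (by linarith) (by positivity)
      _ = M ^ 3 / 2 := by ring
      _ ≤ M ^ 3 := by linarith [pow_nonneg hM0 3]
  have hM3 : 0 ≤ M ^ 3 := pow_nonneg hM0 3
  have h12 : a / K ≤ b / K := Nat.div_le_div_right hab.le
  have h23 : b / K ≤ c / K := Nat.div_le_div_right hbc.le
  have h34 : c / K ≤ d / K := Nat.div_le_div_right hcd.le
  have pa := ht_pos K B a
  have pb := ht_pos K B b
  have pc := ht_pos K B c
  have m12 := ht_mono K B hab.le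
  have m23 := ht_mono K B hbc.le
  have m34 := ht_mono K B hcd.le
  clear_value V234 W V123 M
  clear e1 e2 e3 e4
  rcases h34.lt_or_eq with h | h
  · exfalso
    have hj : (M ^ 3 + 2) * ht K B c ≤ ht K B d := by rw [hM]; exact ht_jump K B h
    have t0 : (M ^ 3 + 1) * ht K B c ≤ ht K B d - ht K B c := by linarith
    have t1 : (M ^ 3 + 1) * ht K B c ≤ (ht K B d - ht K B c) * V123 :=
      t0.trans (le_mul_of_one_le_right (by linarith) V123pos)
    have t2 : (ht K B c - ht K B b) * W ≤ ht K B c * M ^ 3 :=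
      mul_le_mul (by linarith) Wle (by linarith) pc.le
    have t3 : 0 ≤ (ht K B b - ht K B a) * V234 := mul_nonneg (by linarith) (by linarith)
    have t4 : (M ^ 3 + 1) * ht K B c = ht K B c * M ^ 3 + ht K B c := by ring
    linarith
  · have e34 := ht_eq K B h
    rcases h23.lt_or_eq with h' | h'
    · exfalso
      have hj : (M ^ 3 + 2) * ht K B b ≤ ht K B c := by rw [hM]; exact ht_jump K B h'
      have t0 : (M ^ 3 + 1) * ht K B b ≤ ht K B c - ht K B b := by linarith
      have t1 : (M ^ 3 + 1) * ht K B b ≤ (ht K B c - ht K B b) * W :=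
        t0.trans (le_mul_of_one_le_right (by linarith) Wpos)
      have t2 : (ht K B b - ht K B a) * V234 ≤ ht K B b * M ^ 3 :=
        mul_le_mul (by linarith) V234le (by linarith) pb.le
      have t3 : (ht K B d - ht K B c) * V123 = 0 := by rw [e34, sub_self, zero_mul]
      have t4 : (M ^ 3 + 1) * ht K B b = ht K B b * M ^ 3 + ht K B b := by ring
      linarith
    · have e23 := ht_eq K B h'
      rcases h12.lt_or_eq with h'' | h''
      · exfalso
        have hj : (M ^ 3 + 2) * ht K B a ≤ ht K B b := by rw [hM]; exact ht_jump K B h''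
        have t5 : (ht K B c - ht K B b) * W = 0 := by rw [e23, sub_self, zero_mul]
        have t6 : (ht K B d - ht K B c) * V123 = 0 := by rw [e34, sub_self, zero_mul]
        have t0 : (M ^ 3 + 1) * ht K B a ≤ ht K B b - ht K B a := by linarith
        have t1 : 0 < ht K B b - ht K B a :=
          lt_of_lt_of_le (mul_pos (by linarith) pa) t0
        have : 0 < (ht K B b - ht K B a) * V234 := mul_pos t1 (by linarith)
        linarith
      · omega

end Pool.Agent.W42.Joints
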