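import Mathlib
import Pool.Agent.W42.Joints.Conf
import Pool.Agent.W42.Joints.Comb

set_option autoImplicit false

/-!
The configuration: number of lines and number of joints.
-/

namespace Pool.Agent.W42.Joints

open Module

lemma pl_inj (K B : ℕ) : Function.Injective (pl K B) := by
  intro a b h
  exact_mod_cast plane_inj h

/-- The planes of the configuration. -/
noncomputable def HH (K B : ℕ) : Finset Flat := by
  classical exact (Finset.range (K * B)).image (pl K B)

lemma mem_HH {K B : ℕ} {P : Flat} : P ∈ HH K B ↔ ∃ t, t < K * B ∧ pl K B t = P := by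
  classical
  unfold HH
  simp

lemma card_HH (K B : ℕ) : (HH K B).card = K * B := by
  classical
  unfold HH
  rw [Finset.card_image_of_injective _ (pl_inj K B), Finset.card_range]

lemma pl_line {K B a b : ℕ} (h : a ≠ b) : IsLine (pl K B a ⊓ pl K B b) :=
  isLine_inf (by exact_mod_cast h) _ _

lemma direction_pl (K B a : ℕ) : (pl K B a).direction = LinearMap.ker (phi a) :=
  direction_plane _ _

/-- No line lies in three planes of the configuration. -/
lemma no_three {K B a b c : ℕ} (hab : a ≠ b) (hac : a ≠ c) (hbc : b ≠ c) {l : Flat}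
    (hl : IsLine l) (ha : l ≤ pl K B a) (hb : l ≤ pl K B b) (hc : l ≤ pl K B c) : False := by
  have h1 := AffineSubspace.direction_le ha
  have h2 := AffineSubspace.direction_le hb
  have h3 := AffineSubspace.direction_le hc
  rw [direction_pl] at h1 h2 h3
  have h4 : l.direction = ⊥ := by
    rw [eq_bot_iff]
    intro v hv
    rw [Submodule.mem_bot]
    exact eq_zero_of_three (a := a) (b := b) (c := c) (by exact_mod_cast hab)
      (by exact_mod_cast hac) (by exact_mod_cast hbc) (h1 hv) (h2 hv) (h3 hv)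
  have h5 := hl.2
  rw [h4] at h5
  simp at h5

lemma HH_two (K B : ℕ) (l : Flat) (hl : IsLine l) :
    {P ∈ (HH K B : Set Flat) | l ≤ P}.ncard ≤ 2 := by
  classical
  by_contra hcon
  push Not at hcon
  have hfin : {P ∈ (HH K B : Set Flat) | l ≤ P}.Finite :=
    (HH K B).finite_toSet.subset (fun x hx => hx.1)
  obtain ⟨P, Q, R, hP, hQ, hR, hPQ, hPR, hQR⟩ := (Set.two_lt_ncard_iff hfin).1 hcon
  obtain ⟨a, -, rfl⟩ := mem_HH.1 hP.1
  obtain ⟨b, -, rfl⟩ := mem_HH.1 hQ.1
  obtain ⟨c, -, rfl⟩ := mem_HH.1 hR.1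
  exact no_three (K := K) (B := B) (a := a) (b := b) (c := c) (fun h => hPQ (by rw [h]))
    (fun h => hPR (by rw [h])) (fun h => hQR (by rw [h])) hl hP.2 hQ.2 hR.2

/-- The lines of the configuration. -/
noncomputable def LL (K B : ℕ) : Set Flat := linesOf (HH K B : Set Flat)

lemma mem_LL {K B : ℕ} {l : Flat} :
    l ∈ LL K B ↔ ∃ a b, a < K * B ∧ b < K * B ∧ a ≠ b ∧ l = pl K B a ⊓ pl K B b := by
  constructor
  · rintro ⟨P, hP, Q, hQ, hne, rfl⟩
    obtain ⟨a, ha, rfl⟩ := mem_HH.1 hP
    obtain ⟨b, hb, rfl⟩ := mem_HH.1 hQ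
    exact ⟨a, b, ha, hb, fun h => hne (by rw [h]), rfl⟩
  · rintro ⟨a, b, ha, hb, hne, rfl⟩
    exact ⟨_, mem_HH.2 ⟨a, ha, rfl⟩, _, mem_HH.2 ⟨b, hb, rfl⟩, fun h => hne (pl_inj K B h), rfl⟩

lemma LL_line {K B : ℕ} {l : Flat} (h : l ∈ LL K B) : IsLine l := by
  obtain ⟨a, b, -, -, hne, rfl⟩ := mem_LL.1 h
  exact pl_line hne

lemma LL_finite (K B : ℕ) : (LL K B).Finite := linesOf_finite _

lemma LL_ncard (K B : ℕ) : (LL K B).ncard = (K * B).choose 2 := by
  unfold LL
  rw [linesOf_ncard _ _ (HH_two K B), card_HH]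
  intro P hP Q hQ hne
  obtain ⟨a, -, rfl⟩ := mem_HH.1 hP
  obtain ⟨b, -, rfl⟩ := mem_HH.1 hQ
  exact pl_line (fun h => hne (by rw [h]))

/-- Four planes with a common point are in one block. -/
lemma concurrent_block {K B : ℕ} {p : E3} {S : Finset ℕ}
    (hS : ∀ t ∈ S, t < K * B ∧ p ∈ pl K B t) (h4 : 4 ≤ S.card) :
    ∀ s ∈ S, ∀ t ∈ S, s / K = t / K := by
  have hne : S.Nonempty := Finset.card_pos.1 (by omega)
  set a := S.min' hne with ha
  set d := S.max' hne with hd
  have haS : a ∈ S := S.min'_mem hne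
  have hdS : d ∈ S := S.max'_mem hne
  have key : a / K = d / K := by
    have h2 : 2 ≤ ((S.erase a).erase d).card := by
      have e1 : S.card - 1 ≤ (S.erase a).card := Finset.pred_card_le_card_erase
      have e2 : (S.erase a).card - 1 ≤ ((S.erase a).erase d).card := Finset.pred_card_le_card_erase
      omega
    obtain ⟨b, hb, c, hc, hbc⟩ := Finset.one_lt_card.1 (by omega : 1 < ((S.erase a).erase d).card)
    have main : ∀ b c : ℕ, b ∈ (S.erase a).erase d → c ∈ (S.erase a).erase d → b < c →
        a / K = d / K := by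
      intro b c hb hc hbc
      rw [Finset.mem_erase, Finset.mem_erase] at hb hc
      have h1 : a < b := lt_of_le_of_ne (S.min'_le b hb.2.2) (fun h => hb.2.1 h.symm)
      have h2 : c < d := lt_of_le_of_ne (S.le_max' c hc.2.2) hc.1
      exact four_sorted h1 hbc h2 (hS d hdS).1 (hS a haS).2 (hS b hb.2.2).2 (hS c hc.2.2).2
        (hS d hdS).2
    rcases lt_or_gt_of_ne hbc with h | h
    · exact main b c hb hc h
    · exact main c b hc hb h
  have hall : ∀ s ∈ S, s / K = a / K := by
    intro s hs
    have h1 : a / K ≤ s / K := Nat.div_le_div_right (S.min'_le s hs)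
    have h2 : s / K ≤ d / K := Nat.div_le_div_right (S.le_max' s hs)
    omega
  intro s hs t ht
  rw [hall s hs, hall t ht]

/-- A common point of the planes with index in `s`. -/
noncomputable def pt (K B : ℕ) (s : Finset ℕ) : E3 := by
  classical exact if h : ∃ p, ∀ t ∈ s, p ∈ pl K B t then h.choose else 0

lemma pt_mem {K B : ℕ} {s : Finset ℕ} (hs : s.card = 3) : ∀ t ∈ s, pt K B s ∈ pl K B t := by
  classical
  have h : ∃ p, ∀ t ∈ s, p ∈ pl K B t := by
    obtain ⟨a, b, c, hab, hac, hbc, rfl⟩ := Finset.card_eq_three.1 hs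
    obtain ⟨p, h1, h2, h3⟩ := exists_mem_three (a := a) (b := b) (c := c)
      (by exact_mod_cast hab) (by exact_mod_cast hac) (by exact_mod_cast hbc)
      (ht K B a) (ht K B b) (ht K B c)
    refine ⟨p, ?_⟩
    intro t ht
    simp only [Finset.mem_insert, Finset.mem_singleton] at ht
    rcases ht with rfl | rfl | rfl
    · exact h1
    · exact h2
    · exact h3
  unfold pt
  rw [dif_pos h]
  exact h.choose_spec

lemma pt_unique {K B a b c : ℕ} (hab : a ≠ b) (hac : a ≠ c) (hbc : b ≠ c) {p q : E3}
    (pa : p ∈ pl K B a) (pb : p ∈ pl K B b) (pc : p ∈ pl K B c)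
    (qa : q ∈ pl K B a) (qb : q ∈ pl K B b) (qc : q ∈ pl K B c) : p = q := by
  have ea : phi a (p - q) = 0 := by rw [map_sub, mem_plane.1 pa, mem_plane.1 qa, sub_self]
  have eb : phi b (p - q) = 0 := by rw [map_sub, mem_plane.1 pb, mem_plane.1 qb, sub_self]
  have ec : phi c (p - q) = 0 := by rw [map_sub, mem_plane.1 pc, mem_plane.1 qc, sub_self]
  exact sub_eq_zero.1 (eq_zero_of_three (a := a) (b := b) (c := c) (by exact_mod_cast hab)
    (by exact_mod_cast hac) (by exact_mod_cast hbc) ea eb ec)

lemma isJoint_pt {K B : ℕ} {s : Finset ℕ} (hs : s ∈ (Finset.range (K * B)).powersetCard 3) :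
    IsJoint (LL K B) (pt K B s) := by
  rw [Finset.mem_powersetCard] at hs
  have hp := pt_mem (K := K) (B := B) hs.2
  obtain ⟨a, b, c, hab, hac, hbc, rfl⟩ := Finset.card_eq_three.1 hs.2
  have ha : a < K * B := Finset.mem_range.1 (hs.1 (by simp))
  have hb : b < K * B := Finset.mem_range.1 (hs.1 (by simp))
  have hc : c < K * B := Finset.mem_range.1 (hs.1 (by simp))
  have pa := hp a (by simp)
  have pb := hp b (by simp)
  have pc := hp c (by simp)
  have hab' : (a : ℝ) ≠ b := by exact_mod_cast hab
  have hac' : (a : ℝ) ≠ c := by exact_mod_cast hac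
  have hbc' : (b : ℝ) ≠ c := by exact_mod_cast hbc
  refine ⟨![pl K B b ⊓ pl K B c, pl K B a ⊓ pl K B c, pl K B a ⊓ pl K B b], ?_,
    ![dvec b c, dvec a c, dvec a b], ?_, indep_dvec hab' hac' hbc'⟩
  · intro i
    fin_cases i
    · exact ⟨mem_LL.2 ⟨b, c, hb, hc, hbc, rfl⟩, pb, pc⟩
    · exact ⟨mem_LL.2 ⟨a, c, ha, hc, hac, rfl⟩, pa, pc⟩
    · exact ⟨mem_LL.2 ⟨a, b, ha, hb, hab, rfl⟩, pa, pb⟩
  · intro i
    fin_cases i
    · show dvec b c ∈ (plane b (ht K B b) ⊓ plane c (ht K B c)).direction
      rw [direction_inf hbc']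
      exact Submodule.mem_span_singleton_self _
    · show dvec a c ∈ (plane a (ht K B a) ⊓ plane c (ht K B c)).direction
      rw [direction_inf hac']
      exact Submodule.mem_span_singleton_self _
    · show dvec a b ∈ (plane a (ht K B a) ⊓ plane b (ht K B b)).direction
      rw [direction_inf hab']
      exact Submodule.mem_span_singleton_self _

/-- Every joint lies on three planes. -/
lemma joint_three {K B : ℕ} {p : E3} (hp : IsJoint (LL K B) p) :
    ∃ s ∈ (Finset.range (K * B)).powersetCard 3, pt K B s = p := by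
  classical
  obtain ⟨l, hl, v, hv, hind⟩ := hp
  choose a b ha hb hab hlab using fun i => mem_LL.1 (hl i).1
  have hpa : ∀ i, p ∈ pl K B (a i) := by
    intro i
    have := (hl i).2
    rw [hlab i] at this
    exact this.1
  have hpb : ∀ i, p ∈ pl K B (b i) := by
    intro i
    have := (hl i).2
    rw [hlab i] at this
    exact this.2
  set S : Finset ℕ := (Finset.range (K * B)).filter (fun t => p ∈ pl K B t) with hS
  have haS : ∀ i, a i ∈ S := fun i => by
    rw [hS, Finset.mem_filter, Finset.mem_range]; exact ⟨ha i, hpa i⟩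
  have hbS : ∀ i, b i ∈ S := fun i => by
    rw [hS, Finset.mem_filter, Finset.mem_range]; exact ⟨hb i, hpb i⟩
  have h3 : 3 ≤ S.card := by
    by_contra hcon
    push Not at hcon
    have hsub : ({a 0, b 0} : Finset ℕ) ⊆ S := by
      intro x hx
      rw [Finset.mem_insert, Finset.mem_singleton] at hx
      rcases hx with rfl | rfl
      · exact haS 0
      · exact hbS 0
    have hcard : ({a 0, b 0} : Finset ℕ).card = 2 := Finset.card_pair (hab 0)
    have heq : ({a 0, b 0} : Finset ℕ) = S :=
      Finset.eq_of_subset_of_card_le hsub (by rw [hcard]; omega)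
    have hdir : ∀ i, v i ∈ ℝ ∙ dvec (a 0) (b 0) := by
      intro i
      have h1 := hv i
      rw [hlab i] at h1
      have h2 : (pl K B (a i) ⊓ pl K B (b i)).direction = ℝ ∙ dvec (a i) (b i) :=
        direction_inf (by exact_mod_cast hab i) _ _
      rw [h2] at h1
      have h3 := haS i
      have h4 := hbS i
      rw [← heq, Finset.mem_insert, Finset.mem_singleton] at h3 h4
      have h5 := hab i
      rcases h3 with h3 | h3 <;> rcases h4 with h4 | h4
      · exact absurd (h3.trans h4.symm) h5
      · rw [h3, h4] at h1; exact h1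
      · rw [h3, h4, dvec_comm] at h1; exact h1
      · exact absurd (h3.trans h4.symm) h5
    have hle : Submodule.span ℝ (Set.range v) ≤ ℝ ∙ dvec (a 0) (b 0) := by
      rw [Submodule.span_le]
      rintro x ⟨i, rfl⟩
      exact hdir i
    have h6 := Submodule.finrank_mono hle
    rw [finrank_span_eq_card hind, finrank_span_singleton (dvec_ne_zero _ _)] at h6
    simp at h6
  obtain ⟨s, hsS, hs3⟩ := Finset.exists_subset_card_eq h3
  have hsr : s ∈ (Finset.range (K * B)).powersetCard 3 := by
    rw [Finset.mem_powersetCard]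
    exact ⟨hsS.trans (Finset.filter_subset _ _), hs3⟩
  refine ⟨s, hsr, ?_⟩
  have hpt := pt_mem (K := K) (B := B) hs3
  obtain ⟨x, y, z, hxy, hxz, hyz, rfl⟩ := Finset.card_eq_three.1 hs3
  have hx := (Finset.mem_filter.1 (hsS (by simp : x ∈ ({x, y, z} : Finset ℕ)))).2
  have hy := (Finset.mem_filter.1 (hsS (by simp : y ∈ ({x, y, z} : Finset ℕ)))).2
  have hz := (Finset.mem_filter.1 (hsS (by simp : z ∈ ({x, y, z} : Finset ℕ)))).2
  exact pt_unique hxy hxz hyz (hpt x (by simp)) (hpt y (by simp)) (hpt z (by simp)) hx hy hz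

/-- The number of joints. -/
noncomputable def numJoints (L : Set Flat) : ℕ := {p | IsJoint L p}.ncard

lemma joints_eq (K B : ℕ) : {p | IsJoint (LL K B) p} =
    pt K B '' ((Finset.range (K * B)).powersetCard 3 : Set (Finset ℕ)) := by
  ext p
  constructor
  · intro hp
    obtain ⟨s, hs, h⟩ := joint_three hp
    exact ⟨s, by exact_mod_cast hs, h⟩
  · rintro ⟨s, hs, rfl⟩
    exact isJoint_pt (by exact_mod_cast hs)

lemma numJoints_le (K B : ℕ) : numJoints (LL K B) ≤ (K * B).choose 3 := by
  unfold numJoints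
  rw [joints_eq]
  refine (Set.ncard_image_le (Finset.finite_toSet _)).trans ?_
  rw [Set.ncard_coe_finset, Finset.card_powersetCard, Finset.card_range]

lemma le_numJoints (K B : ℕ) : (K * B).choose 3 ≤ numJoints (LL K B) + B * K.choose 3 := by
  classical
  -- triples in one block
  set A : Finset (Finset ℕ) := (Finset.range (K * B)).powersetCard 3 with hA
  set M : Finset (Finset ℕ) := A.filter (fun s => ∀ x ∈ s, ∀ y ∈ s, x / K = y / K) with hM
  have hMcard : M.card ≤ B * K.choose 3 := by
    rcases Nat.eq_zero_or_pos K with rfl | hK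
    · have : M.card ≤ A.card := Finset.card_le_card (Finset.filter_subset _ _)
      rw [hA, Finset.card_powersetCard, Finset.card_range, Nat.zero_mul] at this
      simpa using this
    have hsub : M ⊆ (Finset.range B).biUnion
        (fun β => (Finset.Ico (K * β) (K * β + K)).powersetCard 3) := by
      intro s hs
      rw [hM, Finset.mem_filter, hA, Finset.mem_powersetCard] at hs
      obtain ⟨⟨hs1, hs2⟩, hs3⟩ := hs
      have hne : s.Nonempty := Finset.card_pos.1 (by omega)
      obtain ⟨x, hx⟩ := hne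
      rw [Finset.mem_biUnion]
      refine ⟨x / K, ?_, ?_⟩
      · rw [Finset.mem_range]
        exact Nat.div_lt_of_lt_mul (Finset.mem_range.1 (hs1 hx))
      · rw [Finset.mem_powersetCard]
        refine ⟨?_, hs2⟩
        intro y hy
        have h1 : y / K = x / K := hs3 y hy x hx
        rw [Finset.mem_Ico, ← h1]
        have h2 := Nat.div_add_mod y K
        have h3 := Nat.mod_lt y hK
        omega
    refine (Finset.card_le_card hsub).trans ?_
    refine Finset.card_biUnion_le.trans ?_
    rw [Finset.sum_congr rfl (fun β _ => by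
      rw [Finset.card_powersetCard, Nat.card_Ico, Nat.add_sub_cancel_left])]
    rw [Finset.sum_const, Finset.card_range, smul_eq_mul]
  have hinj : Set.InjOn (pt K B) ((A \ M : Finset (Finset ℕ)) : Set (Finset ℕ)) := by
    intro s hs t ht hst
    rw [Finset.mem_coe, Finset.mem_sdiff] at hs ht
    by_contra hne
    have hs1 := hs.1
    have ht1 := ht.1
    rw [hA, Finset.mem_powersetCard] at hs1 ht1
    have hu : 4 ≤ (s ∪ t).card := by
      by_contra hlt
      push Not at hlt
      have e1 : s = s ∪ t := Finset.eq_of_subset_of_card_le Finset.subset_union_left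
        (by rw [hs1.2]; omega)
      have e2 : t = s ∪ t := Finset.eq_of_subset_of_card_le Finset.subset_union_right
        (by rw [ht1.2]; omega)
      exact hne (e1.trans e2.symm)
    have hblock := concurrent_block (K := K) (B := B) (p := pt K B s) (S := s ∪ t) (by
      intro x hx
      rw [Finset.mem_union] at hx
      rcases hx with hx | hx
      · exact ⟨Finset.mem_range.1 (hs1.1 hx), pt_mem hs1.2 x hx⟩
      · refine ⟨Finset.mem_range.1 (ht1.1 hx), ?_⟩
        rw [hst]
        exact pt_mem ht1.2 x hx) hu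
    apply hs.2
    rw [hM, Finset.mem_filter]
    exact ⟨hs.1, fun x hx y hy => hblock x (Finset.mem_union_left _ hx) y
      (Finset.mem_union_left _ hy)⟩
  have hJ : (A \ M).card ≤ numJoints (LL K B) := by
    unfold numJoints
    rw [joints_eq]
    have h1 : (pt K B '' ((A \ M : Finset (Finset ℕ)) : Set (Finset ℕ))).ncard = (A \ M).card := by
      rw [hinj.ncard_image, Set.ncard_coe_finset]
    rw [← h1]
    apply Set.ncard_le_ncard
    · apply Set.image_mono
      intro s hs
      exact (Finset.mem_sdiff.1 (Finset.mem_coe.1 hs)).1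
    · exact (Finset.finite_toSet _).image _
  have hAc : A.card = (K * B).choose 3 := by
    rw [hA, Finset.card_powersetCard, Finset.card_range]
  have hsd : A.card ≤ (A \ M).card + M.card := by
    have := Finset.le_card_sdiff M A
    omega
  omega

end Pool.Agent.W42.Joints
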