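import Mathlib
import Pool.Agent.W42.Joints.Conf2

set_option autoImplicit false

/-!
The lines of the configuration are far from the lines of every generic family of planes.
-/

namespace Pool.Agent.W42.Joints

open Module

lemma dvec_indep {a b c d : ℝ} (h1 : ¬(a = c ∧ b = d)) (h2 : ¬(a = d ∧ b = c)) :
    LinearIndependent ℝ ![dvec a b, dvec c d] := by
  rw [LinearIndependent.pair_iff]
  intro s t hst
  have e2 := congrArg (fun v : E3 => v 2) hst
  have e1 := congrArg (fun v : E3 => v 1) hst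
  have e0 := congrArg (fun v : E3 => v 0) hst
  simp only [PiLp.add_apply, PiLp.smul_apply, smul_eq_mul, dvec, vec_zero, vec_one, vec_two,
    PiLp.zero_apply] at e0 e1 e2
  have ht : t = -s := by linarith
  rw [ht] at e0 e1 ⊢
  have f1 : s * (a * b - c * d) = 0 := by linear_combination e0
  have f2 : s * (a + b - (c + d)) = 0 := by linear_combination -e1
  rcases mul_eq_zero.1 f1 with hs | hs
  · exact ⟨hs, by rw [hs, neg_zero]⟩
  rcases mul_eq_zero.1 f2 with hs' | hs'
  · exact ⟨hs', by rw [hs', neg_zero]⟩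
  exfalso
  have h3 : (a - c) * (a - d) = 0 := by linear_combination a * hs' - hs
  rcases mul_eq_zero.1 h3 with h | h
  · exact h1 ⟨by linarith, by linarith⟩
  · exact h2 ⟨by linarith, by linarith⟩

lemma span_pair_of_indep {D : Submodule ℝ E3} (hD : finrank ℝ D = 2) {u v : E3} (hu : u ∈ D)
    (hv : v ∈ D) (h : LinearIndependent ℝ ![u, v]) : D = Submodule.span ℝ {u, v} := by
  have hle : Submodule.span ℝ {u, v} ≤ D := by
    rw [Submodule.span_le]
    intro x hx
    rcases hx with rfl | hx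
    · exact hu
    · rw [Set.mem_singleton_iff] at hx
      rw [hx]; exact hv
  have hr : finrank ℝ (Submodule.span ℝ {u, v}) = 2 := by
    have := finrank_span_eq_card h
    rw [Matrix.range_cons, Matrix.range_cons, Matrix.range_empty, Set.union_empty,
      Set.singleton_union] at this
    simpa using this
  exact (Submodule.eq_of_le_of_finrank_eq hle (by rw [hr, hD])).symm

lemma dvec_mem_direction {K B a b : ℕ} (h : a ≠ b) {S : Flat} (hS : pl K B a ⊓ pl K B b ≤ S) :
    dvec a b ∈ S.direction := by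
  apply AffineSubspace.direction_le hS
  have h2 : (pl K B a ⊓ pl K B b).direction = ℝ ∙ dvec (a : ℝ) (b : ℝ) :=
    direction_inf (by exact_mod_cast h) _ _
  rw [h2]
  exact Submodule.mem_span_singleton_self _

/-- A plane which contains two lines of one plane of the configuration is that plane. -/
lemma share {K B a b b' : ℕ} (hab : a ≠ b) (hab' : a ≠ b') (hbb : b ≠ b') {S : Flat}
    (hS : IsPlane S) (h1 : pl K B a ⊓ pl K B b ≤ S) (h2 : pl K B a ⊓ pl K B b' ≤ S) :
    S = pl K B a := by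
  have q1 : (a : ℝ) ≠ b := by exact_mod_cast hab
  have q2 : (a : ℝ) ≠ b' := by exact_mod_cast hab'
  have q3 : (b : ℝ) ≠ b' := by exact_mod_cast hbb
  have hind : LinearIndependent ℝ ![dvec (a : ℝ) b, dvec (a : ℝ) b'] :=
    dvec_indep (fun h => q3 h.2) (fun h => q2 h.1)
  have d1 := span_pair_of_indep hS.2 (dvec_mem_direction hab h1) (dvec_mem_direction hab' h2) hind
  have hp : IsPlane (pl K B a) := isPlane_plane _ _
  have d2 := span_pair_of_indep hp.2
    (dvec_mem_direction hab (inf_le_left : pl K B a ⊓ pl K B b ≤ pl K B a))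
    (dvec_mem_direction hab' (inf_le_left : pl K B a ⊓ pl K B b' ≤ pl K B a)) hind
  obtain ⟨p, hp1, hp2⟩ := exists_mem_two q1 (ht K B a) (ht K B b)
  apply AffineSubspace.ext_of_direction_eq
  · rw [d1, d2]
  · exact ⟨p, h1 ⟨hp1, hp2⟩, hp1⟩

/-- Two lines of a plane with independent directions meet. -/
lemma meet {S : Flat} (hS : IsPlane S) {l m : Flat} {u v p q : E3} (hl : l ≤ S) (hm : m ≤ S)
    (hp : p ∈ l) (hq : q ∈ m) (hu : u ∈ l.direction) (hv : v ∈ m.direction)
    (h : LinearIndependent ℝ ![u, v]) : ∃ x, x ∈ l ∧ x ∈ m := by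
  have hd := span_pair_of_indep hS.2 (AffineSubspace.direction_le hl hu)
    (AffineSubspace.direction_le hm hv) h
  have hpq : q - p ∈ S.direction := AffineSubspace.vsub_mem_direction (hm hq) (hl hp)
  rw [hd, Submodule.mem_span_pair] at hpq
  obtain ⟨s, t, hst⟩ := hpq
  refine ⟨p + s • u, ?_, ?_⟩
  · have := AffineSubspace.vadd_mem_of_mem_direction (l.direction.smul_mem s hu) hp
    rwa [vadd_eq_add, add_comm] at this
  · have := AffineSubspace.vadd_mem_of_mem_direction (m.direction.smul_mem (-t) hv) hq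
    rw [vadd_eq_add] at this
    have e : p + s • u = -t • v + q := by
      have h2 : q = p + (s • u + t • v) := by rw [hst]; abel
      rw [h2, neg_smul]
      abel
    rw [e]
    exact this

/-- Two lines of the configuration in a plane outside the configuration come from four planes of
one block. -/
lemma same_block {K B a b c d : ℕ} (ha : a < K * B) (hb : b < K * B) (hc : c < K * B)
    (hd : d < K * B) (hab : a ≠ b) (hcd : c ≠ d) {S : Flat} (hS : IsPlane S)
    (hSH : S ∉ HH K B) (h1 : pl K B a ⊓ pl K B b ≤ S) (h2 : pl K B c ⊓ pl K B d ≤ S)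
    (hne : pl K B a ⊓ pl K B b ≠ pl K B c ⊓ pl K B d) : a / K = c / K ∧ a ≠ c := by
  have hSne : ∀ t, t < K * B → S ≠ pl K B t := fun t ht h => hSH (mem_HH.2 ⟨t, ht, h.symm⟩)
  have n1 : a ≠ c := by
    rintro rfl
    by_cases hbd : b = d
    · exact hne (by rw [hbd])
    · exact hSne a ha (share hab hcd hbd hS h1 h2)
  have n2 : a ≠ d := by
    rintro rfl
    rw [inf_comm] at h2
    by_cases hbc : b = c
    · exact hne (by rw [hbc, inf_comm])
    · exact hSne a ha (share hab hcd.symm hbc hS h1 h2)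
  have n3 : b ≠ c := by
    rintro rfl
    rw [inf_comm] at h1
    exact hSne b hb (share hab.symm hcd n2 hS h1 h2)
  have n4 : b ≠ d := by
    rintro rfl
    rw [inf_comm] at h1 h2
    exact hSne b hb (share hab.symm hcd.symm n1 hS h1 h2)
  have q1 : (a : ℝ) ≠ b := by exact_mod_cast hab
  have q2 : (c : ℝ) ≠ d := by exact_mod_cast hcd
  have hind : LinearIndependent ℝ ![dvec (a : ℝ) b, dvec (c : ℝ) d] :=
    dvec_indep (fun h => n1 (by exact_mod_cast h.1)) (fun h => n2 (by exact_mod_cast h.1))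
  obtain ⟨p, hp1, hp2⟩ := exists_mem_two q1 (ht K B a) (ht K B b)
  obtain ⟨q, hq1, hq2⟩ := exists_mem_two q2 (ht K B c) (ht K B d)
  obtain ⟨x, hx1, hx2⟩ := meet hS h1 h2 (p := p) (q := q) ⟨hp1, hp2⟩ ⟨hq1, hq2⟩
    (dvec_mem_direction hab le_rfl) (dvec_mem_direction hcd le_rfl) hind
  have h4 : 4 ≤ ({a, b, c, d} : Finset ℕ).card := by
    rw [Finset.card_insert_of_notMem (by simp [hab, n1, n2]),
      Finset.card_insert_of_notMem (by simp [n3, n4]), Finset.card_pair hcd]
  refine ⟨concurrent_block (K := K) (B := B) (p := x) (S := {a, b, c, d}) ?_ h4 a (by simp) c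
    (by simp), n1⟩
  intro t ht
  simp only [Finset.mem_insert, Finset.mem_singleton] at ht
  rcases ht with rfl | rfl | rfl | rfl
  · exact ⟨ha, hx1.1⟩
  · exact ⟨hb, hx1.2⟩
  · exact ⟨hc, hx2.1⟩
  · exact ⟨hd, hx2.2⟩

/-- A plane outside the configuration contains at most `K` lines of the configuration. -/
lemma few_lines {K B : ℕ} (hK : 0 < K) {S : Flat} (hS : IsPlane S) (hSH : S ∉ HH K B) :
    {l ∈ LL K B | l ≤ S}.ncard ≤ K := by
  classical
  rcases Set.eq_empty_or_nonempty {l ∈ LL K B | l ≤ S} with h0 | ⟨l0, hl0⟩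
  · rw [h0, Set.ncard_empty]; exact Nat.zero_le _
  obtain ⟨a0, b0, ha0, hb0, hab0, hl0eq⟩ := mem_LL.1 hl0.1
  have hrep : ∀ l : Flat, ∃ a : ℕ, l ∈ {l ∈ LL K B | l ≤ S} →
      (a < K * B ∧ a / K = a0 / K ∧ ∃ b, b < K * B ∧ a ≠ b ∧ l = pl K B a ⊓ pl K B b) := by
    intro l
    by_cases hl : l ∈ {l ∈ LL K B | l ≤ S}
    · by_cases hll : l = l0
      · exact ⟨a0, fun _ => ⟨ha0, rfl, b0, hb0, hab0, by rw [hll, hl0eq]⟩⟩
      · obtain ⟨a, b, ha, hb, hab, hleq⟩ := mem_LL.1 hl.1
        refine ⟨a, fun _ => ⟨ha, ?_, b, hb, hab, hleq⟩⟩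
        refine (same_block ha hb ha0 hb0 hab hab0 hS hSH ?_ ?_ ?_).1
        · rw [← hleq]; exact hl.2
        · rw [← hl0eq]; exact hl0.2
        · rw [← hleq, ← hl0eq]; exact hll
    · exact ⟨0, fun h => absurd h hl⟩
  choose f hf using hrep
  have hinj : Set.InjOn f {l ∈ LL K B | l ≤ S} := by
    intro l hl m hm hlm
    by_contra hne
    obtain ⟨ha, -, b, hb, hab, hleq⟩ := hf l hl
    obtain ⟨hc, -, d, hd, hcd, hmeq⟩ := hf m hm
    refine (same_block ha hb hc hd hab hcd hS hSH ?_ ?_ ?_).2 hlm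
    · rw [← hleq]; exact hl.2
    · rw [← hmeq]; exact hm.2
    · rw [← hleq, ← hmeq]; exact hne
  have hmaps : f '' {l ∈ LL K B | l ≤ S} ⊆
      ((Finset.Ico (K * (a0 / K)) (K * (a0 / K) + K) : Finset ℕ) : Set ℕ) := by
    rintro x ⟨l, hl, rfl⟩
    obtain ⟨-, h1, -⟩ := hf l hl
    rw [Finset.mem_coe, Finset.mem_Ico, ← h1]
    have h2 := Nat.div_add_mod (f l) K
    have h3 := Nat.mod_lt (f l) hK
    omega
  rw [← hinj.ncard_image]
  refine (Set.ncard_le_ncard hmaps (Finset.finite_toSet _)).trans ?_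
  rw [Set.ncard_coe_finset, Nat.card_Ico, Nat.add_sub_cancel_left]

/-- The centre of a block. -/
lemma centre_mem {K B t : ℕ} :
    vec ((((K * B) ^ 3 + 2 : ℕ) : ℝ) ^ (t / K)) 0 0 ∈ pl K B t := by
  show phi t (vec ((((K * B) ^ 3 + 2 : ℕ) : ℝ) ^ (t / K)) 0 0) = ht K B t
  rw [phi_apply]
  simp [ht]

/-- Few planes of the configuration belong to a family with at most `r` planes through a point. -/
lemma few_common {K B r : ℕ} {H : Finset Flat}
    (hr : ∀ p : E3, {P ∈ (H : Set Flat) | p ∈ P}.ncard ≤ r) {H' : Finset Flat} (hH' : H' ⊆ H)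
    (hH2 : H' ⊆ HH K B) : H'.card ≤ r * B := by
  classical
  have hsub : H' ⊆ (Finset.range B).biUnion (fun β =>
      H.filter (fun P => vec ((((K * B) ^ 3 + 2 : ℕ) : ℝ) ^ β) 0 0 ∈ P)) := by
    intro P hP
    obtain ⟨t, ht, rfl⟩ := mem_HH.1 (hH2 hP)
    rw [Finset.mem_biUnion]
    refine ⟨t / K, Finset.mem_range.2 (Nat.div_lt_of_lt_mul ht), ?_⟩
    rw [Finset.mem_filter]
    exact ⟨hH' hP, centre_mem⟩
  refine (Finset.card_le_card hsub).trans (Finset.card_biUnion_le.trans ?_)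
  have h1 : ∀ β ∈ Finset.range B,
      (H.filter (fun P => vec ((((K * B) ^ 3 + 2 : ℕ) : ℝ) ^ β) 0 0 ∈ P)).card ≤ r := by
    intro β _
    have := hr (vec ((((K * B) ^ 3 + 2 : ℕ) : ℝ) ^ β) 0 0)
    rw [← Set.ncard_coe_finset, Finset.coe_filter]
    exact this
  refine (Finset.sum_le_sum h1).trans ?_
  rw [Finset.sum_const, Finset.card_range, smul_eq_mul, mul_comm]

/-- The number of common lines. -/
lemma common_le {K B r : ℕ} (hK : 0 < K) {H : Finset Flat} (hpl : ∀ P ∈ H, IsPlane P)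
    (hr : ∀ p : E3, {P ∈ (H : Set Flat) | p ∈ P}.ncard ≤ r) :
    (LL K B ∩ linesOf (H : Set Flat)).ncard ≤ H.card * K + (r * B).choose 2 := by
  classical
  set H1 : Finset Flat := H.filter (fun P => P ∈ HH K B) with hH1
  set H2 : Finset Flat := H.filter (fun P => P ∉ HH K B) with hH2
  have hsub : LL K B ∩ linesOf (H : Set Flat) ⊆
      (⋃ S ∈ H2, {l ∈ LL K B | l ≤ S}) ∪ linesOf (H1 : Set Flat) := by
    rintro l ⟨hl, P, hP, Q, hQ, hne, rfl⟩
    by_cases hP1 : P ∈ HH K B
    · by_cases hQ1 : Q ∈ HH K B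
      · right
        exact ⟨P, by rw [hH1, Finset.mem_coe, Finset.mem_filter]; exact ⟨hP, hP1⟩, Q,
          by rw [hH1, Finset.mem_coe, Finset.mem_filter]; exact ⟨hQ, hQ1⟩, hne, rfl⟩
      · left
        simp only [Set.mem_iUnion]
        exact ⟨Q, by rw [hH2, Finset.mem_filter]; exact ⟨hQ, hQ1⟩, hl, inf_le_right⟩
    · left
      simp only [Set.mem_iUnion]
      exact ⟨P, by rw [hH2, Finset.mem_filter]; exact ⟨hP, hP1⟩, hl, inf_le_left⟩
  have hfin1 : (⋃ S ∈ H2, {l ∈ LL K B | l ≤ S}).Finite :=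
    (LL_finite K B).subset (by
      intro l hl
      simp only [Set.mem_iUnion] at hl
      obtain ⟨S, -, h, -⟩ := hl
      exact h)
  refine (Set.ncard_le_ncard hsub (hfin1.union (linesOf_finite _))).trans ?_
  refine (Set.ncard_union_le _ _).trans (Nat.add_le_add ?_ ?_)
  · have h1 : (⋃ S ∈ H2, {l ∈ LL K B | l ≤ S}).ncard ≤ ∑ S ∈ H2, {l ∈ LL K B | l ≤ S}.ncard :=
      Finset.set_ncard_biUnion_le H2 (fun S => {l ∈ LL K B | l ≤ S})
    refine h1.trans ?_
    refine (Finset.sum_le_sum (fun S hS => few_lines hK (hpl S (Finset.mem_filter.1 hS).1)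
      (Finset.mem_filter.1 hS).2)).trans ?_
    rw [Finset.sum_const, smul_eq_mul]
    exact Nat.mul_le_mul_right _ (Finset.card_le_card (Finset.filter_subset _ _))
  · refine (linesOf_ncard_le H1).trans (Nat.choose_le_choose 2 ?_)
    exact few_common hr (Finset.filter_subset _ _) (fun P hP => (Finset.mem_filter.1 hP).2)

/-- The distance to the lines of a family of planes. -/
lemma dist_ge {K B r : ℕ} (hK : 0 < K) {H : Finset Flat} (hpl : ∀ P ∈ H, IsPlane P)
    (hpar : ∀ P ∈ H, ∀ Q ∈ H, P ≠ Q → P.direction ≠ Q.direction)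
    (hl : ∀ l, IsLine l → {P ∈ (H : Set Flat) | l ≤ P}.ncard ≤ 2)
    (hr : ∀ p : E3, {P ∈ (H : Set Flat) | p ∈ P}.ncard ≤ r) :
    ((LL K B).ncard : ℝ) - ((4 * K + 1) ^ 2 / 8 + (r * B) ^ 2) ≤
      ((symmDiff (LL K B) (linesOf (H : Set Flat))).ncard : ℝ) := by
  have h1 := common_le (B := B) (r := r) hK hpl hr
  have h2 := linesOf_ncard H
    (fun P hP Q hQ hne => isLine_inf_of_plane (hpl P hP) (hpl Q hQ) (hpar P hP Q hQ hne)) hl
  have e1 := Set.ncard_inter_add_ncard_sdiff_eq_ncard (LL K B) (linesOf (H : Set Flat))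
    (LL_finite K B)
  have e2 := Set.ncard_inter_add_ncard_sdiff_eq_ncard (linesOf (H : Set Flat)) (LL K B)
    (linesOf_finite H)
  rw [Set.inter_comm] at e2
  have e3 : (symmDiff (LL K B) (linesOf (H : Set Flat))).ncard =
      (LL K B \ linesOf (H : Set Flat)).ncard + (linesOf (H : Set Flat) \ LL K B).ncard := by
    rw [Set.symmDiff_def]
    exact Set.ncard_union_eq (Set.disjoint_left.2 (fun x hx hx' => hx'.2 hx.1))
      ((LL_finite K B).subset Set.sdiff_subset) ((linesOf_finite H).subset Set.sdiff_subset)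
  set I := (LL K B ∩ linesOf (H : Set Flat)).ncard
  set h := H.card
  have e1' : (I : ℝ) + (LL K B \ linesOf (H : Set Flat)).ncard = (LL K B).ncard := by
    exact_mod_cast e1
  have e2' : (I : ℝ) + (linesOf (H : Set Flat) \ LL K B).ncard = (h * (h - 1) / 2 : ℝ) := by
    rw [← Nat.cast_choose_two, ← h2]
    exact_mod_cast e2
  have h1' : (I : ℝ) ≤ h * K + (r * B) * (r * B - 1) / 2 := by
    have h3 : (I : ℝ) ≤ ((h * K + (r * B).choose 2 : ℕ) : ℝ) := by exact_mod_cast h1
    push_cast [Nat.cast_choose_two] at h3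
    exact h3
  rw [e3]
  push_cast
  have e4 : (0 : ℝ) ≤ (h - (4 * K + 1) / 2) ^ 2 := sq_nonneg _
  have e5 : (0 : ℝ) ≤ r * B := by positivity
  nlinarith

end Pool.Agent.W42.Joints
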