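import Mathlib
import Pool.Agent.W42.Joints.Dist

set_option autoImplicit false

/-!
Asymptotics of the numbers of lines and joints.
-/

namespace Pool.Agent.W42.Joints

open Module Filter Topology

lemma choose_three_cast {m : ℕ} (hm : 2 ≤ m) :
    ((m.choose 3 : ℕ) : ℝ) = (m : ℝ) * (m - 1) * (m - 2) / 6 := by
  have h1 := Nat.choose_succ_right_eq m 2
  have h2 : ((m.choose 3 : ℕ) : ℝ) * 3 = ((m.choose 2 : ℕ) : ℝ) * (m - 2) := by
    have h3 : ((m.choose (2 + 1) * (2 + 1) : ℕ) : ℝ) = ((m.choose 2 * (m - 2) : ℕ) : ℝ) := by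
      rw [h1]
    push_cast [Nat.cast_sub hm] at h3
    linarith
  rw [Nat.cast_choose_two] at h2
  linarith

lemma asym : Tendsto (fun m : ℕ => ((m.choose 3 : ℕ) : ℝ) / (((m.choose 2 : ℕ) : ℝ) ^ (3 / 2 : ℝ)))
    atTop (𝓝 (√2 / 3)) := by
  have hF : ContinuousAt (fun u : ℝ => (1 - u) * (1 - 2 * u) / 6 / (((1 - u) / 2) ^ (3 / 2 : ℝ)))
      0 := by
    apply ContinuousAt.div
    · fun_prop
    · apply ContinuousAt.rpow_const
      · fun_prop
      · left; norm_num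
    · norm_num
  have hF0 : (1 - (0 : ℝ)) * (1 - 2 * 0) / 6 / (((1 - (0 : ℝ)) / 2) ^ (3 / 2 : ℝ)) = √2 / 3 := by
    have h1 : ((1 : ℝ) / 2) ^ (3 / 2 : ℝ) = 1 / 2 * √(1 / 2) := by
      rw [show (3 / 2 : ℝ) = 1 + 1 / 2 by norm_num, Real.rpow_add (by norm_num), Real.rpow_one,
        ← Real.sqrt_eq_rpow]
    have h2 : √((1 : ℝ) / 2) = √2 / 2 := by
      rw [Real.sqrt_div (by norm_num), Real.sqrt_one]
      have : √(2 : ℝ) * √2 = 2 := Real.mul_self_sqrt (by norm_num)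
      have h3 : √(2 : ℝ) ≠ 0 := by positivity
      field_simp
      linarith
    norm_num only [sub_zero, mul_zero, mul_one]
    rw [h1, h2]
    have : √(2 : ℝ) * √2 = 2 := Real.mul_self_sqrt (by norm_num)
    have h3 : √(2 : ℝ) ≠ 0 := by positivity
    field_simp
    nlinarith
  have hlim : Tendsto (fun m : ℕ => (1 : ℝ) / m) atTop (𝓝 0) := tendsto_one_div_atTop_nhds_zero_nat
  have h := hF.tendsto.comp hlim
  rw [hF0] at h
  refine h.congr' ?_
  filter_upwards [eventually_ge_atTop 2] with m hm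
  have hm0 : (0 : ℝ) < m := by
    have : 0 < m := by omega
    exact_mod_cast this
  have hm1 : (2 : ℝ) ≤ m := by exact_mod_cast hm
  simp only [Function.comp_apply]
  rw [choose_three_cast hm, Nat.cast_choose_two]
  have e1 : (m : ℝ) * (m - 1) / 2 = (m : ℝ) ^ (2 : ℝ) * ((1 - 1 / m) / 2) := by
    rw [Real.rpow_two]
    field_simp
  have hnn : (0 : ℝ) ≤ (1 - 1 / m) / 2 := by
    have : (1 : ℝ) / m ≤ 1 := by
      rw [div_le_one hm0]; linarith
    linarith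
  rw [e1, Real.mul_rpow (by positivity) hnn, ← Real.rpow_mul hm0.le,
    show (2 : ℝ) * (3 / 2) = ((3 : ℕ) : ℝ) by norm_num, Real.rpow_natCast]
  have hpos : (0 : ℝ) < ((1 - 1 / (m : ℝ)) / 2) ^ (3 / 2 : ℝ) := by
    apply Real.rpow_pos_of_pos
    have : (1 : ℝ) / m < 1 := by
      rw [div_lt_one hm0]; linarith
    linarith
  generalize ((1 - 1 / (m : ℝ)) / 2) ^ (3 / 2 : ℝ) = X at hpos
  field_simp

/-- Data: sequences with the required properties. -/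
lemma exists_seq (g : ℕ → ℕ) (hg : Tendsto (fun m : ℕ => (g m : ℝ) / m) atTop (𝓝 0)) :
    ∃ K : ℕ → ℕ, ∀ k, k + 2 ≤ K k ∧ (g (K k * (k + 2)) : ℝ) * (k + 2) ≤ K k := by
  have : ∀ k : ℕ, ∃ K : ℕ, k + 2 ≤ K ∧ (g (K * (k + 2)) : ℝ) * (k + 2) ≤ K := by
    intro k
    have hpos : (0 : ℝ) < 1 / ((k : ℝ) + 2) ^ 2 := by positivity
    have h1 : ∀ᶠ m : ℕ in atTop, (g m : ℝ) / m < 1 / ((k : ℝ) + 2) ^ 2 :=
      hg.eventually (gt_mem_nhds hpos)
    have h2 : Tendsto (fun K : ℕ => K * (k + 2)) atTop atTop := by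
      apply tendsto_atTop_mono (f := fun k => k) _ tendsto_id
      intro n
      exact Nat.le_mul_of_pos_right n (by omega)
    obtain ⟨K, hK1, hK2⟩ := ((h2.eventually h1).and (eventually_ge_atTop (k + 2))).exists
    refine ⟨K, hK2, ?_⟩
    have hKpos : (0 : ℝ) < K := by
      have : 0 < K := by omega
      exact_mod_cast this
    push_cast at hK1
    rw [div_lt_div_iff₀ (by positivity) (by positivity)] at hK1
    have hk : (0 : ℝ) < (k : ℝ) + 2 := by positivity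
    have e : ((g (K * (k + 2)) : ℝ) * (k + 2)) * (k + 2) ≤ K * (k + 2) := by
      calc ((g (K * (k + 2)) : ℝ) * (k + 2)) * (k + 2) = g (K * (k + 2)) * ((k : ℝ) + 2) ^ 2 := by
            ring
        _ ≤ 1 * (K * (k + 2)) := hK1.le
        _ = K * (k + 2) := one_mul _
    exact le_of_mul_le_mul_right e hk
  choose K hK using this
  exact ⟨K, hK⟩

section seq

variable {K B : ℕ}

lemma n_ge (hK : 1 ≤ K) (hB : 2 ≤ B) : ((K : ℝ) * B) ^ 2 / 4 ≤ (((K * B).choose 2 : ℕ) : ℝ) := by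
  rw [Nat.cast_choose_two]
  have h1 : (2 : ℝ) ≤ (K : ℝ) * B := by
    have : 2 ≤ K * B := by nlinarith
    exact_mod_cast this
  push_cast
  nlinarith

lemma dist_final {r : ℕ} (hK : 1 ≤ K) (hB : 2 ≤ B) (hr : (r : ℝ) * B ≤ K) {D : ℝ}
    (hD : (((K * B).choose 2 : ℕ) : ℝ) - ((4 * K + 1) ^ 2 / 8 + (r * B) ^ 2) ≤ D) :
    (1 - 20 / (B : ℝ) ^ 2) * (((K * B).choose 2 : ℕ) : ℝ) ≤ D := by
  have hn := n_ge hK hB
  set n : ℝ := (((K * B).choose 2 : ℕ) : ℝ)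
  have hK1 : (1 : ℝ) ≤ K := by exact_mod_cast hK
  have hB1 : (2 : ℝ) ≤ B := by exact_mod_cast hB
  have e1 : ((r : ℝ) * B) ^ 2 ≤ (K : ℝ) ^ 2 := by
    apply pow_le_pow_left₀ (by positivity) hr
  have e2 : (4 * (K : ℝ) + 1) ^ 2 / 8 ≤ 4 * (K : ℝ) ^ 2 := by nlinarith
  have e3 : 5 * (K : ℝ) ^ 2 ≤ 20 / (B : ℝ) ^ 2 * n := by
    have : 5 * (K : ℝ) ^ 2 = 20 / (B : ℝ) ^ 2 * (((K : ℝ) * B) ^ 2 / 4) := by
      field_simp
      ring
    rw [this]
    exact mul_le_mul_of_nonneg_left hn (by positivity)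
  have : (1 - 20 / (B : ℝ) ^ 2) * n = n - 20 / (B : ℝ) ^ 2 * n := by ring
  rw [this]
  linarith

lemma joints_final (hK : 1 ≤ K) (hB : 2 ≤ B) :
    (((K * B).choose 3 : ℕ) : ℝ) / ((((K * B).choose 2 : ℕ) : ℝ) ^ (3 / 2 : ℝ)) - 8 / (B : ℝ) ^ 2 ≤
      (numJoints (LL K B) : ℝ) / ((((K * B).choose 2 : ℕ) : ℝ) ^ (3 / 2 : ℝ)) := by
  have hn := n_ge hK hB
  have hK1 : (1 : ℝ) ≤ K := by exact_mod_cast hK
  have hB1 : (2 : ℝ) ≤ B := by exact_mod_cast hB
  have hJ : (((K * B).choose 3 : ℕ) : ℝ) ≤ numJoints (LL K B) + B * (K : ℝ) ^ 3 := by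
    have h1 : (((K * B).choose 3 : ℕ) : ℝ) ≤ ((numJoints (LL K B) + B * K.choose 3 : ℕ) : ℝ) := by
      exact_mod_cast le_numJoints K B
    push_cast at h1
    have h2 : ((K.choose 3 : ℕ) : ℝ) ≤ (K : ℝ) ^ 3 := by
      exact_mod_cast Nat.choose_le_pow K 3
    nlinarith
  set n : ℝ := (((K * B).choose 2 : ℕ) : ℝ)
  have hp : ((K : ℝ) * B) ^ 3 / 8 ≤ n ^ (3 / 2 : ℝ) := by
    have h1 : (((K : ℝ) * B) ^ 2 / 4) ^ (3 / 2 : ℝ) = ((K : ℝ) * B) ^ 3 / 8 := by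
      have : ((K : ℝ) * B) ^ 2 / 4 = ((K : ℝ) * B / 2) ^ (2 : ℝ) := by
        rw [Real.rpow_two]; ring
      rw [this, ← Real.rpow_mul (by positivity), show (2 : ℝ) * (3 / 2) = ((3 : ℕ) : ℝ) by norm_num,
        Real.rpow_natCast]
      ring
    rw [← h1]
    exact Real.rpow_le_rpow (by positivity) hn (by norm_num)
  have hpos : (0 : ℝ) < n ^ (3 / 2 : ℝ) := lt_of_lt_of_le (by positivity) hp
  have h5 : (B : ℝ) * (K : ℝ) ^ 3 / n ^ (3 / 2 : ℝ) ≤ 8 / (B : ℝ) ^ 2 := by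
    rw [div_le_div_iff₀ hpos (by positivity)]
    have : 8 * (((K : ℝ) * B) ^ 3 / 8) = B * (K : ℝ) ^ 3 * (B : ℝ) ^ 2 := by ring
    rw [← this]
    linarith
  have h6 : (((K * B).choose 3 : ℕ) : ℝ) / n ^ (3 / 2 : ℝ) ≤
      (numJoints (LL K B) : ℝ) / n ^ (3 / 2 : ℝ) + B * (K : ℝ) ^ 3 / n ^ (3 / 2 : ℝ) := by
    rw [← add_div]
    exact div_le_div_of_nonneg_right hJ hpos.le
  linarith

end seq

/-- The main statement for a given bound `g` on the number of concurrent planes. -/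
theorem main (g : ℕ → ℕ) (hg : Tendsto (fun m : ℕ => (g m : ℝ) / m) atTop (𝓝 0)) :
    ∃ (m : ℕ → ℕ) (L : ℕ → Set Flat), Tendsto m atTop atTop ∧
      (∀ k, (L k).Finite ∧ (∀ l ∈ L k, IsLine l) ∧ (L k).ncard = (m k).choose 2) ∧
      Tendsto (fun k => (numJoints (L k) : ℝ) / ((L k).ncard : ℝ) ^ (3 / 2 : ℝ)) atTop
        (𝓝 (√2 / 3)) ∧
      ∀ ε : ℝ, 0 < ε → ∀ᶠ k in atTop, ∀ H : Finset Flat, (∀ P ∈ H, IsPlane P) →
        (∀ P ∈ H, ∀ Q ∈ H, P ≠ Q → P.direction ≠ Q.direction) →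
        (∀ l, IsLine l → {P ∈ (H : Set Flat) | l ≤ P}.ncard ≤ 2) →
        (∀ p : E3, {P ∈ (H : Set Flat) | p ∈ P}.ncard ≤ g (m k)) →
        (1 - ε) * ((L k).ncard : ℝ) ≤ ((symmDiff (L k) (linesOf (H : Set Flat))).ncard : ℝ) := by
  obtain ⟨K, hK⟩ := exists_seq g hg
  have hm : Tendsto (fun k => K k * (k + 2)) atTop atTop := by
    apply tendsto_atTop_mono (f := fun k => k) _ tendsto_id
    intro k
    have := (hK k).1
    nlinarith
  have hB2 : ∀ c : ℝ, Tendsto (fun k : ℕ => c / ((k + 2 : ℕ) : ℝ) ^ 2) atTop (𝓝 0) := by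
    intro c
    have h1 : Tendsto (fun k : ℕ => ((k + 2 : ℕ) : ℝ)) atTop atTop :=
      tendsto_natCast_atTop_atTop.comp (tendsto_add_atTop_nat 2)
    exact ((tendsto_pow_atTop (n := 2) (by norm_num)).comp h1).const_div_atTop c
  refine ⟨fun k => K k * (k + 2), fun k => LL (K k) (k + 2), hm, ?_, ?_, ?_⟩
  · intro k
    exact ⟨LL_finite _ _, fun l hl => LL_line hl, LL_ncard _ _⟩
  · have hup := asym.comp hm
    have hlow := hup.sub (hB2 8)
    rw [sub_zero] at hlow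
    refine tendsto_of_tendsto_of_tendsto_of_le_of_le hlow hup ?_ ?_
    · intro k
      have h1 := joints_final (K := K k) (B := k + 2) (by have := (hK k).1; omega) (by omega)
      simp only [Function.comp_apply]
      rw [LL_ncard]
      exact h1
    · intro k
      simp only [Function.comp_apply]
      rw [LL_ncard]
      apply div_le_div_of_nonneg_right
      · exact_mod_cast numJoints_le _ _
      · exact Real.rpow_nonneg (Nat.cast_nonneg _) _
  · intro ε hε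
    have h1 : ∀ᶠ k : ℕ in atTop, 20 / ((k + 2 : ℕ) : ℝ) ^ 2 < ε :=
      (hB2 20).eventually (gt_mem_nhds hε)
    filter_upwards [h1] with k hk H hpl hpar hl hr
    have h2 := dist_ge (K := K k) (B := k + 2) (by have := (hK k).1; omega) hpl hpar hl hr
    rw [LL_ncard] at h2 ⊢
    have h3 := (hK k).2
    have h4 := dist_final (K := K k) (B := k + 2) (r := g (K k * (k + 2)))
      (by have := (hK k).1; omega) (by omega) (by push_cast; exact h3) h2
    refine le_trans ?_ h4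
    apply mul_le_mul_of_nonneg_right _ (Nat.cast_nonneg _)
    linarith

end Pool.Agent.W42.Joints
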